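import Mathlib
import Pool.Agent.V11300.DE.Fin

/-!
# The diagonal Moebius-twisted Elliott-Halberstam bound for almost all integers

The statement `dEH(N^θ)` holds for every `θ < 1` if `N` is restricted to the complement of one fixed
set `E` with `#(E ∩ [1,X]) ≪_B X/(log X)^B` for every `B`.
-/

set_option autoImplicit false

namespace Pool.Agent.Results.MP_e9eb55_nt.AlmostAllIntegers

open Finset

/-- `g₁(m) = μ(m)` -/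
noncomputable def g₁ (m : ℕ) : ℝ := ((ArithmeticFunction.moebius m : ℤ) : ℝ)

/-- `g₂(m) = μ(m) log m` -/
noncomputable def g₂ (m : ℕ) : ℝ := ((ArithmeticFunction.moebius m : ℤ) : ℝ) * Real.log m

/-- the quantity `D_g(N;θ)` of the problem -/
noncomputable def DLam (g : ℕ → ℝ) (N : ℕ) (θ : ℝ) : ℝ :=
  ∑ q ∈ (Icc 1 ⌊(N : ℝ) ^ θ⌋₊).filter (fun q => Nat.Coprime q N),
    |∑ n ∈ (Ico 1 N).filter (fun n => n ≡ N [MOD q]), ArithmeticFunction.vonMangoldt n * g (N - n) -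
      1 / (Nat.totient q : ℝ) * ∑ n ∈ Ico 1 N, ArithmeticFunction.vonMangoldt n * g (N - n)|

/-- `T_q(y) = ∑_{n < N, n ≤ y, n ≡ N mod q} f(n) g(N - n)` -/
noncomputable def T (f g : ℕ → ℝ) (N q y : ℕ) : ℝ :=
  ∑ n ∈ (Ico 1 N).filter (fun n => n ≤ y ∧ n ≡ N [MOD q]), f n * g (N - n)

/-- `∑_{q ≤ N^θ} |T_q(y_q)|`: all moduli, with no main term subtracted -/
noncomputable def S (f g : ℕ → ℝ) (N : ℕ) (θ : ℝ) (y : ℕ → ℕ) : ℝ :=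
  ∑ q ∈ Icc 1 ⌊(N : ℝ) ^ θ⌋₊, |T f g N q (y q)|

/-- `∑_{q ≤ N^θ, (q,N)=1} |T_q(y_q) - T_1(y_q)/φ(q)|` -/
noncomputable def D (f g : ℕ → ℝ) (N : ℕ) (θ : ℝ) (y : ℕ → ℕ) : ℝ :=
  ∑ q ∈ (Icc 1 ⌊(N : ℝ) ^ θ⌋₊).filter (fun q => Nat.Coprime q N),
    |T f g N q (y q) - T f g N 1 (y q) / (Nat.totient q : ℝ)|

/-- the bounds `≤ N/(log N)^A` for both weights and all choices of the cut-offs `y_q` -/
def Good (f : ℕ → ℝ) (N : ℕ) (θ : ℝ) (A : ℕ) : Prop :=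
  ∀ g : ℕ → ℝ, (g = g₁ ∨ g = g₂) → ∀ y : ℕ → ℕ,
    S f g N θ y ≤ N / Real.log N ^ A ∧ D f g N θ y ≤ N / Real.log N ^ A

open Classical in
theorem result :
    -- (1) the statement of the problem, outside one sparse set of integers
    (∃ E : Set ℕ,
      (∀ B : ℕ, ∃ C : ℝ, ∀ X : ℕ, 2 ≤ X →
        (((Icc 1 X).filter (fun N : ℕ => N ∈ E)).card : ℝ) ≤ C * (X / Real.log X ^ B)) ∧
      ∀ θ : ℝ, 0 < θ → θ < 1 → ∀ A : ℕ, ∃ N₀ : ℕ, ∀ N : ℕ, N₀ ≤ N → N ∉ E →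
        DLam g₁ N θ ≤ N / Real.log N ^ A ∧ DLam g₂ N θ ≤ N / Real.log N ^ A) ∧
    -- (2) the same for any `f` bounded by the logarithm, with the maximum over `y` inside
    (∀ f : ℕ → ℝ, (∀ n, |f n| ≤ Real.log n) → ∃ E : Set ℕ,
      (∀ B : ℕ, ∃ C : ℝ, ∀ X : ℕ, 2 ≤ X →
        (((Icc 1 X).filter (fun N : ℕ => N ∈ E)).card : ℝ) ≤ C * (X / Real.log X ^ B)) ∧
      ∀ θ : ℝ, 0 < θ → θ < 1 → ∀ A : ℕ, ∃ N₀ : ℕ, ∀ N : ℕ, N₀ ≤ N → N ∉ E → Good f N θ A) ∧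
    -- (3) uniformly in `f`
    (∀ θ : ℝ, 0 < θ → θ < 1 → ∀ A B : ℕ, ∃ C : ℝ, ∀ f : ℕ → ℝ, (∀ n, |f n| ≤ Real.log n) →
      ∀ X : ℕ, 2 ≤ X →
        (((Icc 1 X).filter (fun N : ℕ => ¬ Good f N θ A)).card : ℝ) ≤ C * (X / Real.log X ^ B)) := by
  have h2 : ∀ f : ℕ → ℝ, (∀ n, |f n| ≤ Real.log n) → ∃ E : Set ℕ,
      (∀ B : ℕ, ∃ C : ℝ, ∀ X : ℕ, 2 ≤ X →
        (((Icc 1 X).filter (fun N : ℕ => N ∈ E)).card : ℝ) ≤ C * (X / Real.log X ^ B)) ∧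
      ∀ θ : ℝ, 0 < θ → θ < 1 → ∀ A : ℕ, ∃ N₀ : ℕ, ∀ N : ℕ, N₀ ≤ N → N ∉ E → Good f N θ A :=
    fun f hf => V11300.DE.diagonal f hf
  refine ⟨?_, h2, fun θ hθ0 hθ A B => V11300.DE.uniform θ hθ0 hθ A B⟩
  obtain ⟨E, hE1, hE2⟩ := h2 (fun n => ArithmeticFunction.vonMangoldt n) (fun n => by
    rw [abs_of_nonneg ArithmeticFunction.vonMangoldt_nonneg]
    exact ArithmeticFunction.vonMangoldt_le_log)
  refine ⟨E, hE1, fun θ hθ0 hθ A => ?_⟩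
  obtain ⟨N₀, hN₀⟩ := hE2 θ hθ0 hθ A
  refine ⟨N₀, fun N hN hNE => ?_⟩
  have hg := hN₀ N hN hNE
  have key : ∀ g : ℕ → ℝ, DLam g N θ = D (fun n => ArithmeticFunction.vonMangoldt n) g N θ (fun _ => N) := by
    intro g
    unfold DLam D T
    apply sum_congr rfl
    intro q _
    congr 1
    have e1 : (Ico 1 N).filter (fun n => n ≤ N ∧ n ≡ N [MOD q]) = (Ico 1 N).filter (fun n => n ≡ N [MOD q]) := by
      apply filter_congr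
      intro n hn
      rw [mem_Ico] at hn
      exact ⟨fun h => h.2, fun h => ⟨hn.2.le, h⟩⟩
    have e2 : (Ico 1 N).filter (fun n => n ≤ N ∧ n ≡ N [MOD 1]) = Ico 1 N := by
      apply filter_true_of_mem
      intro n hn
      rw [mem_Ico] at hn
      exact ⟨hn.2.le, Nat.modEq_one⟩
    rw [e1, e2]
    ring
  rw [key, key]
  exact ⟨(hg g₁ (Or.inl rfl) _).2, (hg g₂ (Or.inr rfl) _).2⟩

end Pool.Agent.Results.MP_e9eb55_nt.AlmostAllIntegers
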