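import Pool.Agent.V11300.DE.Fin
import Pool.Agent.V11312.PW.Digits

/-!
# The diagonal Moebius-twisted Elliott-Halberstam bound in random residue classes

Let `m_j` be the product of the first `j` of arbitrary bases `b_i + 2` (for example `m_j = q ^ j` or `m_j = (j + 1)!`) and let
`n_j` be the integer with `j` independent uniform random digits in these bases. Almost surely `dEH(N^θ)` holds for every
`θ < 1` for ALL the integers `N ≤ m_j (log m_j) ^ B` which are congruent to `n_j` modulo `m_j`, for all large `j`, for every `B`.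

The proof combines the sparse exceptional set of `AlmostAllIntegers` (helper300, module `Pool.Agent.V11300.DE`) with the
classes of random integers of helper312 (`Pool.Agent.V11312.PW.Digits`).
-/

set_option autoImplicit false

namespace Pool.Agent.Results.MP_e9eb55_nt.RandomResidueClasses

open Finset MeasureTheory Filter Topology
open Pool.Agent.V11312.PD (modulus value law ae_classes)

/-- `g₁(m) = μ(m)` -/
noncomputable def g₁ (m : ℕ) : ℝ := ((ArithmeticFunction.moebius m : ℤ) : ℝ)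

/-- `g₂(m) = μ(m) log m` -/
noncomputable def g₂ (m : ℕ) : ℝ := ((ArithmeticFunction.moebius m : ℤ) : ℝ) * Real.log m

/-- the quantity `D_g(N;θ)` of the problem -/
noncomputable def DLam (g : ℕ → ℝ) (N : ℕ) (θ : ℝ) : ℝ :=
  ∑ q ∈ (Icc 1 ⌊(N : ℝ) ^ θ⌋₊).filter (fun q => Nat.Coprime q N),
    |∑ n ∈ (Ico 1 N).filter (fun n => n ≡ N [MOD q]), ArithmeticFunction.vonMangoldt n * g (N - n) -
      1 / (Nat.totient q : ℝ) * ∑ n ∈ Ico 1 N, ArithmeticFunction.vonMangoldt n * g (N - n)|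

/-- `T_q(y) = ∑_{n < N, n ≤ y, n ≡ N mod q} f(n) g(N - n)` -/
noncomputable def T (f g : ℕ → ℝ) (N q y : ℕ) : ℝ :=
  ∑ n ∈ (Ico 1 N).filter (fun n => n ≤ y ∧ n ≡ N [MOD q]), f n * g (N - n)

/-- `∑_{q ≤ N^θ} |T_q(y_q)|`: all moduli, with no main term subtracted -/
noncomputable def S (f g : ℕ → ℝ) (N : ℕ) (θ : ℝ) (y : ℕ → ℕ) : ℝ :=
  ∑ q ∈ Icc 1 ⌊(N : ℝ) ^ θ⌋₊, |T f g N q (y q)|

/-- `∑_{q ≤ N^θ, (q,N)=1} |T_q(y_q) - T_1(y_q)/φ(q)|` -/
noncomputable def D (f g : ℕ → ℝ) (N : ℕ) (θ : ℝ) (y : ℕ → ℕ) : ℝ :=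
  ∑ q ∈ (Icc 1 ⌊(N : ℝ) ^ θ⌋₊).filter (fun q => Nat.Coprime q N),
    |T f g N q (y q) - T f g N 1 (y q) / (Nat.totient q : ℝ)|

/-- the bounds `≤ N/(log N)^A` for both weights and all choices of the cut-offs `y_q` -/
def Good (f : ℕ → ℝ) (N : ℕ) (θ : ℝ) (A : ℕ) : Prop :=
  ∀ g : ℕ → ℝ, (g = g₁ ∨ g = g₂) → ∀ y : ℕ → ℕ,
    S f g N θ y ≤ N / Real.log N ^ A ∧ D f g N θ y ≤ N / Real.log N ^ A

/-- a sparse set is avoided -/
theorem avoid (b : ℕ → ℕ) (E : Set ℕ)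
    (hE : ∀ B : ℕ, ∃ C : ℝ, ∀ X : ℕ, 2 ≤ X → ∀ F : Finset ℕ, (∀ N ∈ F, N ∈ E ∧ 1 ≤ N ∧ N ≤ X) →
      (F.card : ℝ) ≤ C * (X / Real.log X ^ B)) (B : ℕ) :
    ∀ᵐ ω ∂(law b), ∃ j₀ : ℕ, ∀ j : ℕ, j₀ ≤ j → ∀ N : ℕ, 1 ≤ N →
      (N : ℝ) ≤ modulus b j * Real.log (modulus b j) ^ B → N ≡ value b ω j [MOD modulus b j] → N ∉ E := by
  classical
  have h := ae_classes b (fun k : ℤ => 0 < k ∧ k.toNat ∈ E) (fun P => by
    obtain ⟨C, hC⟩ := hE (P + 1)
    obtain ⟨X₀, hX₀⟩ := eventually_atTop.1 ((Real.tendsto_log_atTop.comp tendsto_natCast_atTop_atTop).eventually_ge_atTop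
      (max C 1))
    refine ⟨max X₀ 2, fun X hX => ?_⟩
    have hlog := hX₀ X ((le_max_left _ _).trans hX)
    have hX2 : 2 ≤ X := (le_max_right _ _).trans hX
    simp only [Function.comp_apply] at hlog
    have hl1 : 1 ≤ Real.log X := (le_max_right _ _).trans hlog
    have hlC : C ≤ Real.log X := (le_max_left _ _).trans hlog
    obtain ⟨F, hF⟩ : ∃ F : Finset ℕ, F = (Icc 1 X).filter (fun N : ℕ => N ∈ E) := ⟨_, rfl⟩
    have h1 := hC X hX2 F (by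
      intro N hN
      rw [hF, mem_filter, mem_Icc] at hN
      exact ⟨hN.2, hN.1.1, hN.1.2⟩)
    have hsub : {k : ℤ | |k| ≤ (X : ℤ) ∧ 0 < k ∧ k.toNat ∈ E} ⊆ ((F.image (fun n : ℕ => (n : ℤ)) : Finset ℤ) : Set ℤ) := by
      rintro k ⟨hk1, hk2, hk3⟩
      rw [Finset.mem_coe, mem_image]
      refine ⟨k.toNat, ?_, Int.toNat_of_nonneg hk2.le⟩
      rw [hF, mem_filter, mem_Icc]
      rw [abs_of_pos hk2] at hk1
      refine ⟨⟨?_, ?_⟩, hk3⟩
      · omega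
      · omega
    have h2 : ({k : ℤ | |k| ≤ (X : ℤ) ∧ 0 < k ∧ k.toNat ∈ E}.ncard : ℝ) ≤ F.card := by
      have h3 := Set.ncard_le_ncard hsub (Finset.finite_toSet _)
      rw [Set.ncard_coe_finset] at h3
      exact_mod_cast h3.trans card_image_le
    refine h2.trans (h1.trans ?_)
    have hl0 : 0 < Real.log X := by linarith
    have e : C * ((X : ℝ) / Real.log X ^ (P + 1)) = C / Real.log X * (X / Real.log X ^ P) := by
      rw [pow_succ]
      field_simp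
    rw [e]
    refine mul_le_of_le_one_left (by positivity) ?_
    rw [div_le_one hl0]
    exact hlC) B
  filter_upwards [h] with ω hω
  obtain ⟨j₀, hj₀⟩ := hω
  refine ⟨j₀, fun j hj N hN1 hN2 hN3 hNE => ?_⟩
  refine hj₀ j hj (N : ℤ) ?_ ?_ ⟨by exact_mod_cast hN1, by simpa using hNE⟩
  · rw [Int.cast_natCast, abs_of_nonneg (Nat.cast_nonneg _)]
    exact hN2
  · exact (Int.natCast_modEq_iff.2 hN3).symm

/-- bounded sets are avoided -/
theorem avoid_small (b : ℕ → ℕ) (N₀ B : ℕ) :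
    ∀ᵐ ω ∂(law b), ∃ j₀ : ℕ, ∀ j : ℕ, j₀ ≤ j → ∀ N : ℕ, 1 ≤ N →
      (N : ℝ) ≤ modulus b j * Real.log (modulus b j) ^ B → N ≡ value b ω j [MOD modulus b j] → N₀ ≤ N := by
  have h := avoid b {N | N < N₀} (fun P => by
    have hlo : (fun x : ℝ => Real.log x ^ P) =O[atTop] (id : ℝ → ℝ) := Real.isLittleO_pow_log_id_atTop.isBigO
    obtain ⟨c, hc⟩ := hlo.bound
    obtain ⟨x₀, hx₀⟩ := eventually_atTop.1 hc
    -- a bound for all `X ≥ 2`
    obtain ⟨X₁, hX₁⟩ := exists_nat_ge x₀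
    obtain ⟨K, hK⟩ : ∃ K : ℝ, K = ∑ X ∈ range (X₁ + 1), |Real.log X ^ P| := ⟨_, rfl⟩
    have hK0 : 0 ≤ K := by rw [hK]; positivity
    have hbd : ∀ X : ℕ, 2 ≤ X → Real.log X ^ P ≤ (|c| + K) * X := by
      intro X hX
      have hX0 : (0 : ℝ) ≤ X := Nat.cast_nonneg _
      have hX1 : (1 : ℝ) ≤ X := by exact_mod_cast (by omega : 1 ≤ X)
      rcases le_total X X₁ with h1 | h1
      · have h2 : |Real.log X ^ P| ≤ K := by
          rw [hK]
          exact single_le_sum (f := fun X : ℕ => |Real.log X ^ P|) (fun _ _ => abs_nonneg _) (mem_range.2 (by omega))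
        have h3 := le_abs_self (Real.log X ^ P)
        nlinarith [abs_nonneg c]
      · have h2 := hx₀ X (hX₁.trans (by exact_mod_cast h1))
        simp only [id, Real.norm_eq_abs] at h2
        rw [abs_of_nonneg hX0] at h2
        have h3 := le_abs_self (Real.log X ^ P)
        have h4 : c * X ≤ |c| * X := mul_le_mul_of_nonneg_right (le_abs_self c) hX0
        nlinarith
    refine ⟨N₀ * (|c| + K), fun X hX F hF => ?_⟩
    have hcard : (F.card : ℝ) ≤ N₀ := by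
      have : F ⊆ range N₀ := fun N hN => mem_range.2 (hF N hN).1
      have h2 := card_le_card this
      rw [card_range] at h2
      exact_mod_cast h2
    have hlX : 0 < Real.log X := Real.log_pos (by exact_mod_cast (by omega : 1 < X))
    have h3 := hbd X hX
    have h4 : 1 ≤ (|c| + K) * (X / Real.log X ^ P) := by
      rw [← mul_div_assoc, le_div_iff₀ (by positivity), one_mul]
      exact h3
    calc (F.card : ℝ) ≤ N₀ * 1 := by rw [mul_one]; exact hcard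
      _ ≤ N₀ * ((|c| + K) * (X / Real.log X ^ P)) := mul_le_mul_of_nonneg_left h4 (Nat.cast_nonneg _)
      _ = _ := by ring) B
  filter_upwards [h] with ω hω
  obtain ⟨j₀, hj₀⟩ := hω
  refine ⟨j₀, fun j hj N hN1 hN2 hN3 => ?_⟩
  have := hj₀ j hj N hN1 hN2 hN3
  simpa using this

open Classical in
theorem general (b : ℕ → ℕ) (f : ℕ → ℝ) (hf : ∀ n, |f n| ≤ Real.log n) :
    ∀ᵐ ω ∂(law b), ∀ B A : ℕ, ∀ θ : ℝ, 0 < θ → θ < 1 → ∃ j₀ : ℕ, ∀ j : ℕ, j₀ ≤ j → ∀ N : ℕ, 1 ≤ N →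
      (N : ℝ) ≤ modulus b j * Real.log (modulus b j) ^ B → N ≡ value b ω j [MOD modulus b j] → Good f N θ A := by
  obtain ⟨E, hE1, hE2⟩ : ∃ E : Set ℕ,
      (∀ B : ℕ, ∃ C : ℝ, ∀ X : ℕ, 2 ≤ X →
        (((Icc 1 X).filter (fun N : ℕ => N ∈ E)).card : ℝ) ≤ C * (X / Real.log X ^ B)) ∧
      ∀ θ : ℝ, 0 < θ → θ < 1 → ∀ A : ℕ, ∃ N₀ : ℕ, ∀ N : ℕ, N₀ ≤ N → N ∉ E → Good f N θ A :=
    V11300.DE.diagonal f hf
  have h1 : ∀ B : ℕ, ∀ᵐ ω ∂(law b), ∃ j₀ : ℕ, ∀ j : ℕ, j₀ ≤ j → ∀ N : ℕ, 1 ≤ N →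
      (N : ℝ) ≤ modulus b j * Real.log (modulus b j) ^ B → N ≡ value b ω j [MOD modulus b j] → N ∉ E :=
    fun B => avoid b E (fun P => by
      obtain ⟨C, hC⟩ := hE1 P
      refine ⟨C, fun X hX F hF => le_trans ?_ (hC X hX)⟩
      have : F ⊆ (Icc 1 X).filter (fun N : ℕ => N ∈ E) := fun N hN => by
        rw [mem_filter, mem_Icc]
        exact ⟨⟨(hF N hN).2.1, (hF N hN).2.2⟩, (hF N hN).1⟩
      exact_mod_cast card_le_card this) B
  have h2 : ∀ N₀ B : ℕ, ∀ᵐ ω ∂(law b), ∃ j₀ : ℕ, ∀ j : ℕ, j₀ ≤ j → ∀ N : ℕ, 1 ≤ N →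
      (N : ℝ) ≤ modulus b j * Real.log (modulus b j) ^ B → N ≡ value b ω j [MOD modulus b j] → N₀ ≤ N :=
    fun N₀ B => avoid_small b N₀ B
  filter_upwards [ae_all_iff.2 h1, ae_all_iff.2 fun N₀ => ae_all_iff.2 (h2 N₀)] with ω hω1 hω2 B A θ hθ0 hθ
  obtain ⟨N₀, hN₀⟩ := hE2 θ hθ0 hθ A
  obtain ⟨j₁, hj₁⟩ := hω1 B
  obtain ⟨j₂, hj₂⟩ := hω2 N₀ B
  refine ⟨max j₁ j₂, fun j hj N hN1 hN2 hN3 => ?_⟩
  exact hN₀ N (hj₂ j ((le_max_right _ _).trans hj) N hN1 hN2 hN3) (hj₁ j ((le_max_left _ _).trans hj) N hN1 hN2 hN3)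

/-- **The statement of the problem in random residue classes.** -/
theorem result (b : ℕ → ℕ) :
    -- (1) the statement of the problem
    (∀ᵐ ω ∂(law b), ∀ B A : ℕ, ∀ θ : ℝ, 0 < θ → θ < 1 → ∃ j₀ : ℕ, ∀ j : ℕ, j₀ ≤ j → ∀ N : ℕ, 1 ≤ N →
      (N : ℝ) ≤ modulus b j * Real.log (modulus b j) ^ B → N ≡ value b ω j [MOD modulus b j] →
        DLam g₁ N θ ≤ N / Real.log N ^ A ∧ DLam g₂ N θ ≤ N / Real.log N ^ A) ∧
    -- (2) the same for any `f` bounded by the logarithm, with cut-offs, all moduli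
    (∀ f : ℕ → ℝ, (∀ n, |f n| ≤ Real.log n) →
      ∀ᵐ ω ∂(law b), ∀ B A : ℕ, ∀ θ : ℝ, 0 < θ → θ < 1 → ∃ j₀ : ℕ, ∀ j : ℕ, j₀ ≤ j → ∀ N : ℕ, 1 ≤ N →
        (N : ℝ) ≤ modulus b j * Real.log (modulus b j) ^ B → N ≡ value b ω j [MOD modulus b j] → Good f N θ A) := by
  refine ⟨?_, fun f hf => general b f hf⟩
  have h := general b (fun n => ArithmeticFunction.vonMangoldt n) (fun n => by
    rw [abs_of_nonneg ArithmeticFunction.vonMangoldt_nonneg]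
    exact ArithmeticFunction.vonMangoldt_le_log)
  filter_upwards [h] with ω hω B A θ hθ0 hθ
  obtain ⟨j₀, hj₀⟩ := hω B A θ hθ0 hθ
  refine ⟨j₀, fun j hj N hN1 hN2 hN3 => ?_⟩
  have hg := hj₀ j hj N hN1 hN2 hN3
  have key : ∀ g : ℕ → ℝ, DLam g N θ = D (fun n => ArithmeticFunction.vonMangoldt n) g N θ (fun _ => N) := by
    intro g
    unfold DLam D T
    apply sum_congr rfl
    intro q _
    congr 1
    have e1 : (Ico 1 N).filter (fun n => n ≤ N ∧ n ≡ N [MOD q]) = (Ico 1 N).filter (fun n => n ≡ N [MOD q]) := by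
      apply filter_congr
      intro n hn
      rw [mem_Ico] at hn
      exact ⟨fun h => h.2, fun h => ⟨hn.2.le, h⟩⟩
    have e2 : (Ico 1 N).filter (fun n => n ≤ N ∧ n ≡ N [MOD 1]) = Ico 1 N := by
      apply filter_true_of_mem
      intro n hn
      rw [mem_Ico] at hn
      exact ⟨hn.2.le, Nat.modEq_one⟩
    rw [e1, e2]
    ring
  rw [key, key]
  exact ⟨(hg g₁ (Or.inl rfl) _).2, (hg g₂ (Or.inr rfl) _).2⟩

end Pool.Agent.Results.MP_e9eb55_nt.RandomResidueClasses
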